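import Pool.Agent.P.MP_46a8f8_ag.Fin

namespace Pool.Agent.Results.MP_46a8f8_ag.SL1Dim3

open Pool.Agent.P.MP_46a8f8_ag

universe u

/-- Grothendieck-Serre for `SL₁(A)` over local rings that are essentially smooth over a regular
local ring of dimension at most three (for instance over every regular local ring of dimension
at most three, taking `B = R`). -/
theorem result (B R : Type u) [CommRing B] [IsRegularLocalRing B] (hB : ringKrullDim B ≤ 3)
    [CommRing R] [IsLocalRing R] [Algebra B R] [IsLocalHom (algebraMap B R)]
    [Algebra.FormallySmooth B R] [Algebra.EssFiniteType B R]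
    (A : Type u) [Ring A] [Algebra R A] [IsAzumaya R A]
    (K : Type u) [Field K] [Algebra R K] [IsFractionRing R K]
    (O : Type u) [CommRing O] [Algebra R O] (hO : IsTorsor R A O) (hK : Nonempty (O →ₐ[R] K)) :
    Nonempty (O →ₐ[R] R) :=
  hO.nonempty.elim fun T => main_of pk ss B R hB A K O T hK

end Pool.Agent.Results.MP_46a8f8_ag.SL1Dim3
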